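import Pool.Agent.MP_f56020_al.L2.Cyc
import Pool.Agent.MP_f56020_al.s2.All

/-! Two cycles outside a subgroup give an excursion. -/

namespace Pool.Agent.SQA

open Function Pool.Agent.SQ Pool.Agent.SQ2 Pool.Agent.SQL

variable {G Z : Type*} [Finite Z] {F : Z → Z} {O O' : Set Z}

theorem cyc_cl (hF : Injective F) (h : Cyc F O) (el : Z → G) {z : Z} (hz : z ∈ O) :
    Cl ((st (· ∈ O)).map fun z => (el z, el (F z))) := by
  have p := wk_sgm (fun i => el (F^[i] z)) 0 (minimalPeriod F z) (zero_add _)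
  have e := h.sum hF hz (Set.toFinite O).toFinset (by simp)
    fun x => ({(el x, el (F x))} : Multiset (G × G))
  rw [sum_single (Set.toFinite O).toFinset] at e
  simp only [iterate_minimalPeriod] at p
  refine ⟨el z, p.cast (Eq.trans ?_ e)⟩
  simp only [sgm, zero_add, iterate_succ_apply']

variable [Group G] [Finite G]

theorem two_of (H : Subgroup G) (hF : Injective F) (el : Z → G) (he : Injective el)
    (hr : ∀ g, g ∉ H ↔ ∃ z, el z = g) (hl : Injective fun z => (el z)⁻¹ * el (F z))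
    (hl' : ∀ z, (el z)⁻¹ * el (F z) ∉ H) (h1 : Cyc F O) (h2 : Cyc F O')
    (hO : ∀ z, z ∈ O' ↔ z ∉ O) {a c : Z} (ha : a ∈ O) (hc : c ∈ O') :
    Two (ou H) (ou H) ((st (· ∈ O)).map fun z => (el z, el (F z)))
      ((st (· ∈ O')).map fun z => (el z, el (F z))) := by
  have oo : st (· ∈ O) + st (· ∈ O') = al Z :=
    st_add (fun z h h' => (hO z).1 h' h) fun z => by simp [hO, em]
  have sj : ∀ g, g ∉ H ↔ ∃ z, True ∧ (el z)⁻¹ * el (F z) = g := by
    choose φ hφ using fun z => (hr _).1 (hl' z)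
    have hi : Injective φ := fun z z' e => hl ((hφ z).symm.trans (e ▸ hφ z'))
    refine fun g => ⟨fun hg => ?_, fun ⟨z, _, e⟩ => e ▸ hl' z⟩
    obtain ⟨w, rfl⟩ := (hr g).1 hg
    obtain ⟨z, rfl⟩ := Finite.surjective_of_injective hi w
    exact ⟨z, trivial, (hφ z).symm⟩
  refine ⟨cyc_cl hF h1 el ha, cyc_cl hF h2 el hc, ?_, ?_⟩
  · rw [← hd_add, ← Multiset.map_add, oo, hd, Multiset.map_map]
    refine map_st (he.comp hF) fun g => (hr g).trans ⟨fun ⟨z, e⟩ => ?_, fun ⟨z, _, e⟩ => ⟨_, e⟩⟩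
    obtain ⟨w, rfl⟩ := Finite.surjective_of_injective hF z
    exact ⟨w, trivial, e⟩
  · rw [← lb_add, ← Multiset.map_add, oo, lb, Multiset.map_map]
    exact map_st hl sj

theorem exc (H : Subgroup G) (hF : Injective F) (el : Z → G) (he : Injective el)
    (hr : ∀ g, g ∉ H ↔ ∃ z, el z = g) (hl : Injective fun z => (el z)⁻¹ * el (F z))
    (hl' : ∀ z, (el z)⁻¹ * el (F z) ∉ H) (h1 : Cyc F O) (h2 : Cyc F O')
    (hO : ∀ z, z ∈ O' ↔ z ∉ O) {a b c : Z} (hb : b ∈ O) (hc : c ∈ O')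
    (e1 : el b * (el a)⁻¹ * el (F a) = el (F c)) (e2 : el (F a) * (el (F c))⁻¹ * el c ∈ H)
    (e3 : (el c)⁻¹ * el (F b) ∈ H) : ∃ η ∈ H, η ≠ 1 ∧ Ex H η η := by
  set σ := el (F a) * (el (F c))⁻¹ * el c with hσ
  have lab : ∀ z z', (σ⁻¹ * el z)⁻¹ * (σ⁻¹ * el z') = (el z)⁻¹ * el z' := fun z z' => by group
  have out : ∀ z, σ⁻¹ * el z ∉ H := fun z h =>
    (hr _).2 ⟨z, rfl⟩ ((H.mul_mem_cancel_left (H.inv_mem e2)).1 h)
  have T := two_of H hF (fun z => σ⁻¹ * el z) ((mul_right_injective _).comp he)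
    (fun g => ⟨fun hg => by
      obtain ⟨z, e⟩ := (hr (σ * g)).1 fun h => hg ((H.mul_mem_cancel_left e2).1 h)
      exact ⟨z, by rw [e, inv_mul_cancel_left]⟩, fun ⟨z, e⟩ => e ▸ out z⟩)
    (by simpa only [lab] using hl) (by simpa only [lab] using hl') h1 h2 hO hb hc
  refine ⟨_, e3, fun e => (hO c).1 hc (he (inv_mul_eq_one.1 e) ▸ h1.inv b hb), ?_⟩
  refine t8 (s := σ⁻¹ * el c) (q := σ⁻¹ * el a) (r := σ⁻¹ * el (F a)) T ?_ ?_ ?_
    fun e => out c (e ▸ H.one_mem)
  · refine Multiset.mem_map.2 ⟨b, mem_st.2 hb, Prod.ext ?_ (by group)⟩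
    simp only [hσ, ← e1]
    group
  · refine Multiset.mem_map.2 ⟨c, mem_st.2 hc, Prod.ext rfl ?_⟩
    simp only [hσ]
    group
  · rw [← Multiset.map_add]
    refine Multiset.mem_map.2 ⟨a, ?_, rfl⟩
    rw [Multiset.mem_add, mem_st, mem_st, hO]
    exact em _

section
variable {I W : Type*} [Finite I] [Finite W] {f : I → I} {θ : W → W} {o : W}

theorem cyc_short (hf : Cyc f Set.univ) (h1 : θ o = o) : Cyc (Prod.map f θ) {z | z.2 = o} := by
  refine ⟨fun z hz => by simp [show z.2 = o from hz, h1], ?_⟩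
  rintro ⟨i, _⟩ rfl ⟨j, _⟩ rfl
  obtain ⟨k, rfl⟩ := hf.con i trivial j trivial
  exact ⟨k, by rw [Prod.map_iterate, Prod.map_apply, iterate_fixed h1]⟩

theorem cyc_long (hi : Injective f) (hf : Cyc f Set.univ) (ht : Injective θ) (h1 : θ o = o)
    (h2 : Tr θ (· ≠ o)) {n : ℕ} (h3 : ∀ a, a ≠ o → θ^[n] a = a) (hc : (Nat.card I).Coprime n)
    (hn : 1 < n) : Cyc (Prod.map f θ) {z | z.2 ≠ o} := by
  have ne : ∀ k w, w ≠ o → θ^[k] w ≠ o := fun k w hw e =>
    hw (ht.iterate k (e.trans (iterate_fixed h1 k).symm))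
  refine ⟨fun z hz => ne 1 _ hz, ?_⟩
  rintro ⟨i, w⟩ hw ⟨j, w'⟩ hw'
  obtain ⟨k, rfl⟩ := hf.con i trivial j trivial
  obtain ⟨l, rfl⟩ := h2 _ _ (ne k w hw) hw'
  have := Fintype.ofFinite I
  have p : f^[Nat.card I] (f^[k] i) = f^[k] i := by
    have e := hf.sum hi (z := f^[k] i) trivial Finset.univ (by simp) fun _ => (1 : ℕ)
    simp only [Finset.sum_const, Finset.card_range, smul_eq_mul, mul_one, Finset.card_univ] at e
    rw [Nat.card_eq_fintype_card, ← e]
    exact iterate_minimalPeriod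
  obtain ⟨t, ht'⟩ := Nat.exists_mul_mod_eq_one_of_coprime hc hn
  refine ⟨Nat.card I * (t * l) + k, ?_⟩
  rw [Prod.map_iterate, Prod.map_apply, iterate_add_apply, iterate_add_apply, iterate_mul,
    iterate_fixed p, ← mul_assoc, ← Nat.div_add_mod (Nat.card I * t) n, ht'.2, add_mul, one_mul,
    add_comm, iterate_add_apply, mul_assoc, iterate_mul, iterate_fixed (h3 _ (ne k w hw))]

end

/-- Wilson's theorem gives the length of the frame prime to the length of the cycle. -/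
theorem cop {N n c : ℕ} (hN : 4 ≤ N) (hc : c = 1 ∨ c = 2) (h : c * (n + 1) = N.factorial) :
    (N * (N + 3)).Coprime n := by
  refine Nat.coprime_of_dvd fun p hp h1 h2 => ?_
  have small : p ≤ N → False := fun hle => by
    have d : p * 2 ∣ N.factorial := by
      by_cases e : p = 2
      · subst e
        exact Nat.dvd_factorial (by decide) hN
      · exact ((Nat.coprime_primes hp Nat.prime_two).2 e).mul_dvd_of_dvd_of_dvd
          (Nat.dvd_factorial hp.pos hle) (Nat.dvd_factorial two_pos (by omega))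
    have d' : p ∣ n + 1 := by
      rw [← h] at d
      rcases hc with rfl | rfl
      · exact (Dvd.intro _ rfl).trans (one_mul (n + 1) ▸ d)
      · exact Nat.dvd_of_mul_dvd_mul_right two_pos (mul_comm 2 (n + 1) ▸ d)
    exact hp.one_lt.ne' (Nat.dvd_one.1 ((Nat.dvd_add_right h2).1 d'))
  rcases (Nat.Prime.dvd_mul hp).1 h1 with d | d
  · exact small (Nat.le_of_dvd (by omega) d)
  obtain ⟨k, hk⟩ := d
  rcases (show k = 0 ∨ k = 1 ∨ 2 ≤ k by omega) with rfl | rfl | k2
  · omega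
  · have := Fact.mk hp
    have w := ZMod.wilsons_lemma p
    have e0 : (N : ZMod p) + 3 = 0 := by
      have : ((N + 3 : ℕ) : ZMod p) = 0 := by rw [hk, mul_one, ZMod.natCast_self]
      exact_mod_cast this
    have e1 : (n : ZMod p) = 0 := (ZMod.natCast_eq_zero_iff n p).2 h2
    have e2 : (c : ZMod p) = N.factorial := by
      rw [← h]
      push_cast
      rw [e1]
      ring
    rw [show p - 1 = N + 1 + 1 by omega, Nat.factorial_succ, Nat.factorial_succ] at w
    push_cast at w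
    have e3 : ((2 * c + 1 : ℕ) : ZMod p) = 0 := by
      push_cast
      rw [← e2] at w
      linear_combination w - (c : ZMod p) * (N : ZMod p) * e0
    have := Nat.le_of_dvd (by omega) ((ZMod.natCast_eq_zero_iff _ p).1 e3)
    omega
  · exact small (by nlinarith)

end Pool.Agent.SQA
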