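import Mathlib.GroupTheory.SpecificGroups.Alternating
import Pool.Agent.MP_f56020_al.s2.All

/-! The degrees four and five. -/

namespace Pool.Agent.SQA

open Equiv Equiv.Perm Pool.Agent.SQ Pool.Agent.SQ2

/-- the statement proved by induction on the degree -/
def QQ (α : Type*) [Fintype α] [DecidableEq α] : Prop :=
  (RG (alternatingGroup α) ∧ SG (alternatingGroup α)) ∧ RG (Perm α) ∧ SG (Perm α)

theorem QQ.of_equiv {α β : Type*} [Fintype α] [DecidableEq α] [Fintype β] [DecidableEq β]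
    (e : α ≃ β) (h : QQ α) : QQ β :=
  ⟨⟨RG.of_equiv e.altCongrHom h.1.1, SG.of_equiv e.altCongrHom h.1.2⟩,
    RG.of_equiv e.permCongrHom h.2.1, SG.of_equiv e.permCongrHom h.2.2⟩

/-- a test for repetitions -/
def chk : List ℕ → ℕ → Bool
  | [], _ => true
  | a :: l, m => !m.testBit a && chk l (m ||| 2 ^ a)

theorem chk_nodup : ∀ (l : List ℕ) (m : ℕ), chk l m = true →
    l.Nodup ∧ ∀ a ∈ l, m.testBit a = false
  | [], _, _ => by simp
  | a :: l, m, h => by
    simp only [chk, Bool.and_eq_true, Bool.not_eq_true'] at h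
    obtain ⟨h1, h2⟩ := chk_nodup l _ h.2
    simp only [Nat.testBit_or, Bool.or_eq_false_iff] at h2
    refine ⟨List.nodup_cons.2 ⟨fun m => ?_, h1⟩, fun b hb => ?_⟩
    · simpa using (h2 a m).2
    · rcases List.mem_cons.1 hb with rfl | hb
      · exact h.1
      · exact (h2 b hb).1

section
variable {G : Type*} [Group G]

theorem pth_list : ∀ (l : List G) (x : G),
    Pth ld x (l.getLastD x) l (List.zipWith ld (x :: l) l : List G)
  | [], x => Pth.nil x
  | y :: l, x => by
    rw [List.getLastD_cons]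
    exact Pth.cons x (pth_list l y)

variable [Finite G]

omit [Group G] in
theorem eq_al {l : List G} (c : G → ℕ) (h : chk (l.map c) 0 = true)
    (hc : Nat.card G = l.length) : (l : Multiset G) = al G :=
  Multiset.eq_of_le_of_card_le ((Multiset.le_iff_subset (Multiset.coe_nodup.2
    (chk_nodup _ _ h).1.of_map)).2 fun _ _ => mem_st.2 trivial) (by rw [card_al, hc]; rfl)

theorem eq_nz {l : List G} (c : G → ℕ) (h : chk ((1 :: l).map c) 0 = true)
    (hc : Nat.card G = l.length + 1) : (l : Multiset G) = st (· ≠ 1) :=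
  add_left_cancel (a := {1}) ((eq_al c h hc).trans one_add_nz.symm)

theorem rg_chk (f : ℕ → G) (c : G → ℕ) (x : ℕ) (l : List ℕ) (hx : l.getLastD x = x)
    (h1 : chk ((1 :: l.map f).map c) 0 = true)
    (h2 : chk ((1 :: List.zipWith ld (f x :: l.map f) (l.map f)).map c) 0 = true)
    (hc : Nat.card G = l.length + 1) : RG G := by
  have p := pth_list (l.map f) (f x)
  rw [List.getLastD_map, hx] at p
  exact ⟨_, p.cast (eq_nz c h1 (by simpa using hc)) (eq_nz c h2 (by simpa using hc))⟩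

theorem sg_chk (f : ℕ → G) (c : G → ℕ) (x : ℕ) (l : List ℕ)
    (h1 : chk ((f x :: l.map f).map c) 0 = true)
    (h2 : chk ((1 :: List.zipWith ld (f x :: l.map f) (l.map f)).map c) 0 = true)
    (hc : Nat.card G = l.length + 1) : SG G :=
  ⟨_, _, _, (pth_list (l.map f) (f x)).cast rfl (eq_nz c h2 (by simpa using hc)),
    eq_al c h1 (by simpa using hc)⟩

end

/-- the permutation with the number `k` -/
def pm (n : ℕ) [NeZero n] (k : ℕ) : Perm (Fin n) :=
  swap (Fin.ofNat n 0) (Fin.ofNat n k) * swap (Fin.ofNat n 1) (Fin.ofNat n (k / n)) *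
    swap (Fin.ofNat n 2) (Fin.ofNat n (k / n / n)) *
    swap (Fin.ofNat n 3) (Fin.ofNat n (k / n / n / n))

/-- its square -/
def pa (n : ℕ) [NeZero n] (k : ℕ) : alternatingGroup (Fin n) :=
  ⟨pm n k * pm n k, by rw [mem_alternatingGroup, Perm.sign_mul, Int.units_mul_self]⟩

/-- the code of a permutation -/
def cp {n : ℕ} [NeZero n] (p : Perm (Fin n)) : ℕ :=
  p (Fin.ofNat n 0) + n * (p (Fin.ofNat n 1) + n * (p (Fin.ofNat n 2) + n * p (Fin.ofNat n 3)))

theorem base4 : QQ (Fin 4) := by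
  have c : Nat.card (Perm (Fin 4)) = 24 := by
    rw [Nat.card_perm, Nat.card_fin]
    rfl
  have a : Nat.card (alternatingGroup (Fin 4)) = 12 := by
    have := two_mul_nat_card_alternatingGroup (α := Fin 4)
    omega
  refine ⟨⟨?_, ?_⟩, ?_, ?_⟩
  · exact rg_chk (pa 4) (fun p => cp p.1)
      11 [3, 14, 63, 1, 8, 31, 10, 12, 49, 0, 11]
      rfl (by decide +kernel) (by decide +kernel) a
  · exact sg_chk (pa 4) (fun p => cp p.1)
      2 [12, 49, 10, 14, 1, 3, 63, 31, 0, 11, 8]
      (by decide +kernel) (by decide +kernel) a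
  · exact rg_chk (pm 4) cp
      8 [7, 11, 63, 51, 60, 12, 55, 0, 1, 15, 23, 14, 3, 2, 35, 31, 48, 10, 47, 49, 28, 6, 8]
      rfl (by decide +kernel) (by decide +kernel) c
  · exact sg_chk (pm 4) cp
      27 [55, 60, 3, 7, 12, 35, 6, 63, 11, 10, 31, 48, 28, 0, 51, 8, 2, 1, 49, 47, 14, 23, 15]
      (by decide +kernel) (by decide +kernel) c

theorem base5 : QQ (Fin 5) := by
  have c : Nat.card (Perm (Fin 5)) = 120 := by
    rw [Nat.card_perm, Nat.card_fin]
    rfl
  have a : Nat.card (alternatingGroup (Fin 5)) = 60 := by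
    have := two_mul_nat_card_alternatingGroup (α := Fin 5)
    omega
  refine ⟨⟨?_, ?_⟩, ?_, ?_⟩
  · exact rg_chk (pa 5) (fun p => cp p.1)
      109 [600, 34, 245, 14, 524, 44, 624, 54, 145, 134, 15, 124, 304, 234, 249, 224, 149, 49,
      74, 604, 170, 0, 99, 12, 24, 94, 79, 374, 45, 10, 220, 9, 19, 520, 43, 69, 104, 120, 549,
      84, 504, 354, 174, 17, 534, 399, 514, 13, 3, 119, 379, 93, 389, 4, 1, 76, 324, 350, 109]
      rfl (by decide +kernel) (by decide +kernel) a
  · exact sg_chk (pa 5) (fun p => cp p.1)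
      2 [69, 15, 54, 549, 374, 120, 12, 10, 99, 43, 324, 534, 34, 49, 234, 119, 514, 304, 134,
      170, 389, 524, 220, 520, 93, 245, 74, 44, 399, 145, 79, 354, 124, 13, 604, 14, 17, 0, 24,
      504, 94, 1, 379, 104, 249, 3, 4, 84, 624, 76, 149, 350, 174, 600, 9, 109, 224, 45, 19]
      (by decide +kernel) (by decide +kernel) a
  · exact rg_chk (pm 5) cp
      39 [507, 123, 524, 17, 14, 374, 379, 98, 545, 500, 520, 399, 108, 549, 100, 219, 19, 49,
      4, 502, 103, 304, 74, 3, 76, 174, 245, 48, 10, 144, 69, 574, 350, 164, 324, 620, 522, 120,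
      13, 24, 95, 115, 354, 40, 504, 170, 514, 349, 601, 424, 93, 118, 99, 370, 7, 119, 199,
      145, 220, 510, 33, 609, 234, 209, 604, 624, 15, 12, 75, 124, 8, 147, 169, 78, 359, 351,
      83, 509, 79, 9, 499, 501, 54, 73, 512, 554, 68, 159, 329, 2, 600, 149, 479, 224, 249, 34,
      90, 534, 20, 389, 45, 53, 109, 22, 244, 104, 134, 44, 84, 194, 539, 23, 0, 94, 101, 1, 43,
      18, 39]
      rfl (by decide +kernel) (by decide +kernel) c
  · exact sg_chk (pm 5) cp
      38 [19, 149, 73, 329, 354, 74, 604, 84, 76, 479, 164, 93, 15, 34, 389, 499, 600, 10, 90,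
      4, 68, 534, 370, 95, 174, 170, 118, 244, 8, 75, 69, 144, 40, 54, 0, 120, 98, 3, 9, 234,
      512, 324, 349, 123, 94, 39, 574, 119, 220, 350, 624, 109, 224, 43, 509, 520, 14, 7, 145,
      20, 169, 48, 12, 510, 199, 399, 49, 2, 22, 45, 33, 124, 379, 501, 554, 17, 609, 549, 100,
      23, 507, 620, 219, 24, 359, 539, 502, 101, 159, 374, 504, 99, 134, 147, 44, 78, 103, 522,
      104, 1, 249, 18, 351, 514, 209, 601, 424, 83, 500, 53, 524, 545, 115, 245, 194, 13, 108,
      304, 79]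
      (by decide +kernel) (by decide +kernel) c

end Pool.Agent.SQA
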