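import Pool.Agent.MP_f56020_al.SA.Frm
import Pool.Agent.MP_f56020_al.L2.Base

/-! A block of steps and its cyclic shifts make a frame. -/

namespace Pool.Agent.SQA

open Equiv Equiv.Perm Function Sum Pool.Agent.SQL

variable {N : ℕ}

/-- the shift -/
def sh (r : ZMod N) : Perm (ZMod N ⊕ Bool) := em (Equiv.addRight r)

@[simp] theorem sh_inl (r a : ZMod N) : sh r (inl a) = inl (a + r) := rfl

@[simp] theorem sh_inr (r : ZMod N) (e : Bool) : sh r (inr e) = inr e := rfl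

@[simp] theorem sh_inv_inr (r : ZMod N) (e : Bool) : (sh r)⁻¹ (inr e) = inr e := rfl

theorem sh_add (r s : ZMod N) : sh (r + s) = sh r * sh s := by
  ext (a | e)
  · simp [add_assoc, add_comm s]
  · simp

theorem sh_zero : sh (0 : ZMod N) = 1 := by
  ext (a | e) <;> simp

/-- the class of a pair under the shifts -/
def kc : ZMod N ⊕ Bool → ZMod N ⊕ Bool → ℕ
  | inl a, inl b => (b - a).val
  | inr e, inl _ => if e then N + 1 else N
  | inl _, inr e => if e then N + 3 else N + 2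
  | inr _, inr _ => 0

theorem kc_sh (r : ZMod N) (p q : ZMod N ⊕ Bool) : kc (sh r p) (sh r q) = kc p q := by
  cases p <;> cases q <;> simp [kc]

theorem sh_uniq {r s : ZMod N} {p q : ZMod N ⊕ Bool} (h : 0 < kc p q) (h1 : sh r p = sh s p)
    (h2 : sh r q = sh s q) : r = s := by
  cases p <;> cases q <;> simp_all [kc]

variable [NeZero N]

theorem kc_pos {p q : ZMod N ⊕ Bool} : 0 < kc p q ↔ p ≠ q ∧ ¬ (p.isRight ∧ q.isRight) := by
  have := NeZero.pos N
  rcases p with a | _ | _ <;> rcases q with b | _ | _ <;> simp [kc, this, sub_eq_zero, eq_comm]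

theorem kc_le (p q : ZMod N ⊕ Bool) : kc p q ≤ N + 3 := by
  rcases p with a | _ | _ <;> rcases q with b | _ | _ <;> simp [kc]
  exact (ZMod.val_lt _).le.trans (by omega)

theorem kc_orb {p q p' q' : ZMod N ⊕ Bool} (h : 0 < kc p q) (e : kc p q = kc p' q') :
    ∃ r, sh r p = p' ∧ sh r q = q' := by
  have lt : ∀ a : ZMod N, a.val < N := ZMod.val_lt
  have h' := e ▸ h
  rcases p with a | _ | _ <;> rcases q with b | _ | _ <;> rcases p' with a' | _ | _ <;>
    rcases q' with b' | _ | _ <;> simp only [kc, if_true, Bool.false_eq_true, if_false] at h e h' <;>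
    first
    | omega
    | exact ⟨a' - a, by simp, by
        rw [sh_inl]; congr 1; linear_combination ZMod.val_injective N e⟩
    | exact ⟨a' - a, by simp, rfl⟩
    | exact ⟨b' - b, rfl, by simp⟩
    | (have := lt (b - a); omega)
    | (have := lt (b' - a'); omega)

theorem kc_ty {p q p' q' : ZMod N ⊕ Bool} (h1 : p.getRight? = p'.getRight?)
    (h2 : q.getRight? = q'.getRight?) : (kc p q < N ∧ kc p' q' < N) ∨ kc p q = kc p' q' := by
  cases p <;> cases q <;> cases p' <;> cases q' <;> simp_all [kc, ZMod.val_lt]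

/-- the next place -/
def nb (i : ZMod N × ZMod (N + 3)) : ZMod N × ZMod (N + 3) :=
  (if i.2.val + 1 = N + 3 then i.1 + 1 else i.1, i.2 + 1)

omit [NeZero N] in
theorem nb_inj : Injective (nb : ZMod N × ZMod (N + 3) → _) := by
  rintro ⟨r, j⟩ ⟨r', j'⟩ e
  obtain rfl : j = j' := add_right_cancel (congrArg Prod.snd e)
  have := congrArg Prod.fst e
  simp only [nb] at this
  split_ifs at this
  · rw [add_right_cancel this]
  · rw [this]

theorem nb_cyc : Cyc (nb : ZMod N × ZMod (N + 3) → _) Set.univ := by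
  have a : ∀ (r : ZMod N) k, k < N + 3 → Rch nb (r, 0) (r, (k : ZMod (N + 3))) := fun r k hk => by
    induction k with
    | zero => simpa using Rch.refl _ _
    | succ k ih =>
      refine (ih (by omega)).trans ?_
      convert Rch.one nb _ using 1
      simp only [nb, ZMod.val_cast_of_lt (show k < N + 3 by omega), if_neg hk.ne, Nat.cast_succ]
  have b : ∀ k : ℕ, Rch nb ((0 : ZMod N), 0) ((k : ZMod N), 0) := fun k => by
    induction k with
    | zero => simpa using Rch.refl _ _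
    | succ k ih =>
      refine (ih.trans (a _ (N + 2) (by omega))).trans ?_
      convert Rch.one nb _ using 1
      simp only [nb, ZMod.val_cast_of_lt (show N + 2 < N + 3 by omega), if_true, Nat.cast_succ k]
      rw [← Nat.cast_succ (N + 2), ZMod.natCast_self]
  refine .of_to nb_inj (fun _ _ => trivial) (0, 0) fun ⟨r, j⟩ _ => .symm nb_inj ?_
  simpa using (b r.val).trans (a _ j.val j.val_lt)

/-- a block of steps -/
structure Bk (N : ℕ) [NeZero N] where
  v : ℕ → Perm (ZMod N ⊕ Bool)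
  x : ℕ → ZMod N ⊕ Bool
  y : ℕ → ZMod N ⊕ Bool
  b : ℕ → Perm (ZMod N)
  rp : ZMod N
  rr : ZMod N
  p : ℕ
  q : ℕ
  r : ℕ
  hp : p < N + 3
  hq : q < N + 3
  hr : r < N + 3
  step : ∀ j < N + 3, v (j + 1) = v j * tv (x j) (y j)
  vl : v (N + 3) = sh 1 * v 0 * (sh 1)⁻¹
  bl : b (N + 3) = b 0
  h0 : ∀ j < N + 3, 0 < kc (v j (inr false)) (v j (inr true))
  hi : ∀ j < N + 3, ∀ j' < N + 3,
    kc (v j (inr false)) (v j (inr true)) = kc (v j' (inr false)) (v j' (inr true)) → j = j'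
  s0 : ∀ j < N + 3, 0 < kc (x j) (y j)
  si : ∀ j < N + 3, ∀ j' < N + 3, kc (x j) (y j) = kc (x j') (y j') → j = j'
  ty : ∀ j < N + 3, kc (x j) (y j) < N → b j = b 0 ∧ b (j + 1) = b 0
  ev : ∀ j < N + 3, sign (v j) = sign (b j)
  p1 : ∀ e, (v (q + 1) * em (b (q + 1)) * (sh rp * v (p + 1) * (sh rp)⁻¹ * em (b (p + 1)))⁻¹ *
    (sh rp * v p * (sh rp)⁻¹ * em (b p))) (inr e) = sh rr (v r (inr e))
  p2 : v (q + 1) * em (b (q + 1)) * (sh rp * v (p + 1) * (sh rp)⁻¹ * em (b (p + 1)))⁻¹ *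
    (sh rp * v p * (sh rp)⁻¹ * em (b p)) ≠ sh rr * v r * (sh rr)⁻¹ * em (b r)
  p3 : sh rp * v (p + 1) * (sh rp)⁻¹ * em (b (p + 1)) * (v (q + 1) * em (b (q + 1)))⁻¹ *
    (v q * em (b q)) ∈ PP _
  p4 : (v q)⁻¹ * (sh rr * v (r + 1) * (sh rr)⁻¹) ∈ PP _

theorem Bk.fm (B : Bk N) : Nonempty (Fm (ZMod N) (ZMod N × ZMod (N + 3))) := by
  have nv : ∀ i : ZMod N × ZMod (N + 3), sh (nb i).1 * B.v (nb i).2.val * (sh (nb i).1)⁻¹ =
      sh i.1 * B.v (i.2.val + 1) * (sh i.1)⁻¹ := fun i => by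
    rcases val_succ i.2 with ⟨h, h'⟩ | ⟨h, h'⟩
    · simp only [nb, h, if_neg h'.ne]
    · simp only [nb, h, h', if_true, B.vl, sh_add]
      group
  have nbb : ∀ i : ZMod N × ZMod (N + 3), B.b (nb i).2.val = B.b (i.2.val + 1) := fun i => by
    rcases val_succ i.2 with ⟨h, h'⟩ | ⟨h, h'⟩
    · simp only [nb, h]
    · simp only [nb, h, h', B.bl]
  have vp := ZMod.val_cast_of_lt B.hp
  have vq := ZMod.val_cast_of_lt B.hq
  have vr := ZMod.val_cast_of_lt B.hr
  refine ⟨⟨nb, fun i => sh i.1 * B.v i.2.val * (sh i.1)⁻¹, fun i => sh i.1 (B.x i.2.val),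
    fun i => sh i.1 (B.y i.2.val), fun i => B.b i.2.val, (B.rp, B.p), (0, B.q), (B.rr, B.r),
    nb_inj, nb_cyc, fun i => ?_, ?_, fun i => ?_, fun p q h1 h2 => ?_, fun i => ?_, fun i => ?_,
    ?_, ?_, fun i => ?_, fun e => ?_, ?_, ?_, ?_⟩⟩
  · rw [nv, B.step _ i.2.val_lt, sh, ← tv_conj]
    group
  · rintro ⟨r, j⟩ ⟨r', j'⟩ e1 e2
    simp only [mul_apply, sh_inv_inr] at e1 e2
    obtain rfl : j = j' := ZMod.val_injective _ (B.hi _ j.val_lt _ j'.val_lt (by
      rw [← kc_sh r, e1, e2, kc_sh]))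
    rw [sh_uniq (B.h0 _ j.val_lt) e1 e2]
  · simp only [mul_apply, sh_inv_inr]
    exact (kc_pos.1 (by rw [kc_sh]; exact B.h0 _ i.2.val_lt)).2
  · obtain ⟨j, hj, e⟩ := Finset.surj_on_of_inj_on_of_card_le (s := Finset.range (N + 3))
      (t := Finset.Icc 1 (N + 3)) (fun j _ => kc (B.v j (inr false)) (B.v j (inr true)))
      (fun j hj => Finset.mem_Icc.2 ⟨B.h0 j (Finset.mem_range.1 hj), kc_le _ _⟩)
      (fun j j' hj hj' => B.hi j (Finset.mem_range.1 hj) j' (Finset.mem_range.1 hj')) (by simp)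
      (kc p q) (Finset.mem_Icc.2 ⟨kc_pos.2 ⟨h1, h2⟩, kc_le _ _⟩)
    have hj := Finset.mem_range.1 hj
    obtain ⟨r, e⟩ := kc_orb (B.h0 j hj) e.symm
    exact ⟨(r, j), by simpa only [mul_apply, sh_inv_inr, ZMod.val_cast_of_lt hj] using e⟩
  · exact (kc_pos.1 (by rw [kc_sh]; exact B.s0 _ i.2.val_lt)).1
  · exact (kc_pos.1 (by rw [kc_sh]; exact B.s0 _ i.2.val_lt)).2
  · rintro ⟨r, j⟩ ⟨r', j'⟩ e1 e2
    obtain rfl : j = j' := ZMod.val_injective _ (B.si _ j.val_lt _ j'.val_lt (by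
      rw [← kc_sh r, e1, e2, kc_sh]))
    exact Prod.ext (sh_uniq (B.s0 _ j.val_lt) e1 e2) rfl
  · rintro ⟨r, j⟩ ⟨r', j'⟩ e1 e2
    simp only [nbb]
    rcases kc_ty e1 e2 with ⟨h, h'⟩ | h
    · rw [kc_sh] at h h'
      have a := B.ty _ j.val_lt h
      have a' := B.ty _ j'.val_lt h'
      exact ⟨a.1.trans a'.1.symm, a.2.trans a'.2.symm⟩
    · rw [kc_sh, kc_sh] at h
      rw [B.si _ j.val_lt _ j'.val_lt h]
      exact ⟨rfl, rfl⟩
  · rw [← B.ev _ i.2.val_lt, Perm.sign_mul, Perm.sign_mul, Perm.sign_inv, mul_right_comm,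
      Int.units_mul_self, one_mul]
  · simpa only [nv, nbb, vp, vq, vr, sh_zero, one_mul, inv_one, mul_one, mul_apply _ _ (inr e),
      sh_inv_inr] using B.p1 e
  · simpa only [nv, nbb, vp, vq, vr, sh_zero, one_mul, inv_one, mul_one] using B.p2
  · simpa only [nv, nbb, vp, vq, vr, sh_zero, one_mul, inv_one, mul_one] using B.p3
  · simpa only [nv, nbb, vp, vq, vr, sh_zero, one_mul, inv_one, mul_one] using B.p4

end Pool.Agent.SQA
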