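import Pool.Agent.MP_f56020_al.SA.Abs

/-! A transversal of the pointwise stabiliser of two points that is invariant under conjugation,
and the lift of a frame. -/

namespace Pool.Agent.SQA

open Equiv Equiv.Perm Function Sum Pool.Agent.SQ Pool.Agent.SQ2 Pool.Agent.SQL

variable {Y : Type*}

/-- the permutations that fix the two extra points -/
def em : Perm Y →* Perm (Y ⊕ Bool) := (sumCongrHom Y Bool).comp (MonoidHom.inl _ _)

@[simp] theorem em_inl (k : Perm Y) (y : Y) : em k (inl y) = inl (k y) := rfl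

@[simp] theorem em_inr (k : Perm Y) (e : Bool) : em k (inr e) = inr e := rfl

theorem em_inj : Injective (em : Perm Y → Perm (Y ⊕ Bool)) := fun k k' e =>
  Equiv.ext fun y => inl_injective (β := Bool) (by rw [← em_inl, e, em_inl])

theorem em_gr (k : Perm Y) (p : Y ⊕ Bool) : (em k p).getRight? = p.getRight? := by
  cases p <;> rfl

theorem em_ir (k : Perm Y) (p : Y ⊕ Bool) : (em k p).isRight = p.isRight := by
  cases p <;> rfl

/-- the setwise stabiliser of the two extra points -/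
def PP (Y : Type*) : Subgroup (Perm (Y ⊕ Bool)) := (sumCongrHom Y Bool).range

theorem mem_PP [Finite Y] {g : Perm (Y ⊕ Bool)} :
    g ∈ PP Y ↔ (g (inr false)).isRight ∧ (g (inr true)).isRight := by
  constructor
  · rintro ⟨⟨k, e⟩, rfl⟩
    exact ⟨rfl, rfl⟩
  rintro ⟨h1, h2⟩
  refine mem_sumCongrHom_range_of_perm_mapsTo_inl ?_
  rintro _ ⟨y, rfl⟩
  obtain ⟨a, ha⟩ := Sum.isRight_iff.1 h1
  obtain ⟨b, hb⟩ := Sum.isRight_iff.1 h2
  have n : a ≠ b := fun e => absurd (g.injective (ha.trans (e ▸ hb.symm))) (by simp)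
  rcases hy : g (inl y) with z | e
  · exact ⟨z, rfl⟩
  · by_cases q : e = a
    · exact absurd (g.injective (hy.trans (q ▸ ha.symm))) (by simp)
    · have : e = b := by cases e <;> cases a <;> cases b <;> simp_all
      exact absurd (g.injective (hy.trans (this ▸ hb.symm))) (by simp)

theorem fix_em [Finite Y] {g : Perm (Y ⊕ Bool)} (h1 : g (inr false) = inr false)
    (h2 : g (inr true) = inr true) : ∃ k, em k = g := by
  obtain ⟨⟨k, e⟩, rfl⟩ := mem_PP.2 (show (g (inr false)).isRight ∧ (g (inr true)).isRight by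
    rw [h1, h2]; exact ⟨rfl, rfl⟩)
  refine ⟨k, Equiv.ext ?_⟩
  rintro (y | _ | _)
  · rfl
  · exact h1.symm
  · exact h2.symm

variable [DecidableEq Y]

/-- the element of the transversal that sends the two extra points to `x` and `y` -/
def tv (x y : Y ⊕ Bool) : Perm (Y ⊕ Bool) :=
  swap (inr false) x * swap (inr true) (swap (inr false) x y)

theorem tv_R (x y : Y ⊕ Bool) : tv x y (inr true) = y := by simp [tv]

theorem tv_L {x y : Y ⊕ Bool} (h : x ≠ y) : tv x y (inr false) = x := by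
  have : inr false ≠ swap (inr false) x y := fun e => h (by
    simpa using congrArg (swap (inr false) x) e)
  rw [tv, mul_apply, swap_apply_of_ne_of_ne (a := inr true) (by simp) this, swap_apply_left]

theorem tv_conj (k : Perm Y) (x y : Y ⊕ Bool) :
    em k * tv x y * (em k)⁻¹ = tv (em k x) (em k y) := by
  rw [tv, tv, ← em_inr k false, (em k).injective.swap_apply, ← em_inr k true, swap_apply_apply,
    swap_apply_apply]
  simp only [em_inr]
  group

variable [Fintype Y]

theorem sign_em (k : Perm Y) : sign (em k) = sign k := by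
  simp [em]

/-- a closed walk through the cosets whose steps are the elements of the transversal -/
structure Fm (Y I : Type*) [DecidableEq Y] [Fintype Y] where
  nx : I → I
  v : I → Perm (Y ⊕ Bool)
  x : I → Y ⊕ Bool
  y : I → Y ⊕ Bool
  b : I → Perm Y
  p : I
  q : I
  r : I
  inj : Injective nx
  cyc : Cyc nx Set.univ
  step : ∀ i, v (nx i) = v i * tv (x i) (y i)
  hi : ∀ i j, v i (inr false) = v j (inr false) → v i (inr true) = v j (inr true) → i = j
  ho : ∀ i, ¬ ((v i (inr false)).isRight ∧ (v i (inr true)).isRight)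
  hs : ∀ p q : Y ⊕ Bool, p ≠ q → ¬ (p.isRight ∧ q.isRight) →
    ∃ i, v i (inr false) = p ∧ v i (inr true) = q
  sn : ∀ i, x i ≠ y i
  so : ∀ i, ¬ ((x i).isRight ∧ (y i).isRight)
  si : ∀ i j, x i = x j → y i = y j → i = j
  ty : ∀ i j, (x i).getRight? = (x j).getRight? → (y i).getRight? = (y j).getRight? →
    b i = b j ∧ b (nx i) = b (nx j)
  ev : ∀ i, sign (v i) = sign (b i)
  p1 : ∀ e, (v (nx q) * em (b (nx q)) * (v (nx p) * em (b (nx p)))⁻¹ * (v p * em (b p))) (inr e) =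
    v r (inr e)
  p2 : v (nx q) * em (b (nx q)) * (v (nx p) * em (b (nx p)))⁻¹ * (v p * em (b p)) ≠ v r * em (b r)
  p3 : v (nx p) * em (b (nx p)) * (v (nx q) * em (b (nx q)))⁻¹ * (v q * em (b q)) ∈ PP Y
  p4 : (v q)⁻¹ * v (nx r) ∈ PP Y

theorem Fm.main {I : Type*} [Finite I] (D : Fm Y I) (G : Subgroup (Perm (Y ⊕ Bool)))
    (hG : ∀ g, sign g = 1 → g ∈ G) (hW : RG (G.comap em))
    (hc : ∀ n, n + 1 = Nat.card (G.comap em) → (Nat.card I).Coprime n ∧ 1 < n) :
    ∃ η ∈ (PP Y).subgroupOf G, η ≠ 1 ∧ Ex ((PP Y).subgroupOf G) η η := by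
  obtain ⟨θ, t1, t2, t3, t4⟩ := fibs_theta hW
  obtain ⟨c1, c2⟩ := hc _ (card_ne (1 : G.comap em))
  have mem : ∀ {g g' : Perm (Y ⊕ Bool)}, g ∈ G → sign g' = sign g → g' ∈ G := fun {g g'} h e => by
    have := G.mul_mem (hG (g' * g⁻¹) (by simp [e])) h
    rwa [inv_mul_cancel_right] at this
  have sq : ∀ i, sign (D.b i) * sign (D.b i) = 1 := fun i => Int.units_mul_self _
  let el : I × G.comap em → G := fun z => ⟨D.v z.1 * em z.2.1 * em (D.b z.1), mem z.2.2 (by
    rw [Perm.sign_mul, Perm.sign_mul, D.ev, sign_em (D.b _), mul_right_comm, sq, one_mul])⟩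
  have ev : ∀ z e, (el z).1 (inr e) = D.v z.1 (inr e) := fun _ _ => rfl
  have hr : ∀ (g : G) i, (∀ e, g.1 (inr e) = D.v i (inr e)) → ∃ k, el (i, k) = g := fun g i h => by
    obtain ⟨k, hk⟩ := fix_em (g := (D.v i)⁻¹ * g.1 * (em (D.b i))⁻¹)
      (by rw [← map_inv, mul_apply, mul_apply, em_inr, h]; simp)
      (by rw [← map_inv, mul_apply, mul_apply, em_inr, h]; simp)
    refine ⟨⟨k, mem g.2 ?_⟩, Subtype.ext ?_⟩
    · rw [hk, Perm.sign_mul, Perm.sign_mul, Perm.sign_inv, Perm.sign_inv, D.ev, sign_em (D.b _), mul_right_comm, sq,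
        one_mul]
    · simp only [el, hk]
      group
  have lab : ∀ z, ((el z)⁻¹ * el (Prod.map D.nx θ z)).1 = em (D.b z.1)⁻¹ * (em z.2.1⁻¹ *
      tv (D.x z.1) (D.y z.1) * em (θ z.2).1) * em (D.b (D.nx z.1)) := fun z => by
    simp only [el, Subgroup.coe_mul, Subgroup.coe_inv, Prod.map, D.step, map_inv]
    group
  have l1 : ∀ z, ((el z)⁻¹ * el (Prod.map D.nx θ z)).1 (inr false) =
      em (D.b z.1)⁻¹ (em z.2.1⁻¹ (D.x z.1)) := fun z => by
    simp only [lab, mul_apply, em_inr, tv_L (D.sn _)]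
  have l2 : ∀ z, ((el z)⁻¹ * el (Prod.map D.nx θ z)).1 (inr true) =
      em (D.b z.1)⁻¹ (em z.2.1⁻¹ (D.y z.1)) := fun z => by
    simp only [lab, mul_apply, em_inr, tv_R]
  have e1 : ∀ i, (el (i, 1)).1 = D.v i * em (D.b i) := fun i => by simp [el]
  obtain ⟨k, hk⟩ := hr (el (D.nx D.q, 1) * (el (D.nx D.p, 1))⁻¹ * el (D.p, 1)) D.r fun e => by
    simp only [Subgroup.coe_mul, Subgroup.coe_inv, e1, D.p1]
  refine exc _ (D.inj.prodMap t1.1.1) el ?_ (fun g => ⟨fun h => ?_, ?_⟩) ?_ (fun z h => ?_)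
    (cyc_long D.inj D.cyc t1.1.1 t2 t3 t4 c1 c2) (cyc_short D.cyc t2) (by simp)
    (a := (D.p, 1)) (b := (D.r, k)) (c := (D.q, 1)) (fun e => D.p2 ?_) rfl ?_ ?_ ?_
  · rintro ⟨i, k⟩ ⟨j, k'⟩ e
    obtain rfl : i = j := D.hi i j (by rw [← ev (i, k), e, ev]) (by rw [← ev (i, k), e, ev])
    rw [Subtype.ext (em_inj (mul_left_cancel (mul_right_cancel (congrArg Subtype.val e))) : k.1 = k'.1)]
  · obtain ⟨i, h1, h2⟩ := D.hs (g.1 (inr false)) (g.1 (inr true)) (by simp)
      fun q => h (Subgroup.mem_subgroupOf.2 (mem_PP.2 q))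
    obtain ⟨k, hk⟩ := hr g i (by rintro (_ | _) <;> simp [h1, h2])
    exact ⟨_, hk⟩
  · rintro ⟨z, rfl⟩ h
    exact D.ho z.1 ((mem_PP (g := (el z).1)).1 (Subgroup.mem_subgroupOf.1 h))
  · rintro ⟨i, k⟩ ⟨j, k'⟩ e
    have a1 := (l1 (i, k)).symm.trans ((congrArg (·.1 (inr false)) e).trans (l1 (j, k')))
    have a2 := (l2 (i, k)).symm.trans ((congrArg (·.1 (inr true)) e).trans (l2 (j, k')))
    have a3 := (lab (i, k)).symm.trans ((congrArg Subtype.val e).trans (lab (j, k')))
    obtain ⟨b1, b2⟩ := D.ty i j (by simpa only [em_gr] using congrArg getRight? a1)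
      (by simpa only [em_gr] using congrArg getRight? a2)
    simp only [b1, b2, mul_left_inj, mul_right_inj, EmbeddingLike.apply_eq_iff_eq] at a1 a2 a3
    have a4 := tv_conj k.1⁻¹ (D.x i) (D.y i)
    rw [a1, a2, ← tv_conj, map_inv, map_inv, inv_inv, inv_inv] at a4
    have a5 : em (k⁻¹ * θ k).1 = em (k'⁻¹ * θ k').1 := by
      refine mul_left_cancel (a := (em k.1)⁻¹ * tv (D.x i) (D.y i) * em k.1) ?_
      simp only [Subgroup.coe_mul, Subgroup.coe_inv, map_mul, map_inv] at a3 ⊢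
      rw [mul_assoc, mul_inv_cancel_left, a3, a4, mul_assoc, mul_assoc _ (em k'.1),
        mul_inv_cancel_left, mul_assoc]
    obtain rfl : k = k' := t1.2.1 (Subtype.ext (em_inj a5))
    rw [D.si i j ((em _).injective a1) ((em _).injective a2)]
  · have := mem_PP.1 (Subgroup.mem_subgroupOf.1 h)
    rw [l1, l2] at this
    exact D.so z.1 (by simpa only [em_ir] using this)
  · have := congrArg Subtype.val hk
    rw [show k = 1 from e] at this
    simpa only [Subgroup.coe_mul, Subgroup.coe_inv, e1] using this.symm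
  · simp only [Prod.map, t2, hk]
    group
  · simpa only [Prod.map, t2, Subgroup.mem_subgroupOf, Subgroup.coe_mul, Subgroup.coe_inv, e1]
      using D.p3
  · have := mem_PP.1 D.p4
    refine Subgroup.mem_subgroupOf.2 (mem_PP.2 ?_)
    simp only [Prod.map, Subgroup.coe_mul, Subgroup.coe_inv, e1, mul_inv_rev, ← map_inv, mul_apply,
      ev, em_ir] at this ⊢
    exact this

end Pool.Agent.SQA
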