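import Pool.Agent.MP_f56020_al.SA.Blk

/-! Computing with the points. -/

namespace Pool.Agent.SQA

open Equiv Equiv.Perm Sum
open Function hiding swap

section
variable {Y : Type*} [DecidableEq Y] (a b : Y)

theorem tvA : tv (inr false) (inl b) = swap (inr true) (inl b) := by simp [tv, ← Perm.one_def]

theorem tvB : tv (inl a) (inr true) = swap (inr false) (inl a) := by
  simp [tv, swap_apply_def, ← Perm.one_def]

theorem tvC : tv (inr true) (inl b) = swap (inr false) (inr true) * swap (inr true) (inl b) := by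
  simp [tv, swap_apply_def]

theorem tvD : tv (inl a) (inr false) = swap (inr false) (inl a) * swap (inr true) (inl a) := by
  simp [tv]

theorem tvG (h : a ≠ b) :
    tv (inl a) (inl b) = swap (inr false) (inl a) * swap (inr true) (inl b) := by
  simp [tv, swap_apply_def, h.symm]

theorem sw1 : swap (inr false) (inl a) * swap (inr true) (inl a) * swap (inr false) (inr true) =
    swap (inr true) (inl a : Y ⊕ Bool) := by
  ext (y | _ | _)
  · by_cases h : y = a <;> simp [swap_apply_def, h]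
  · simp [swap_apply_def]
  · simp [swap_apply_def]

theorem sw2 : swap (inr false) (inl a) * swap (inr false) (inr true) =
    swap (inr false) (inr true) * swap (inr true) (inl a : Y ⊕ Bool) := by
  ext (y | _ | _)
  · by_cases h : y = a <;> simp [swap_apply_def, h]
  · simp [swap_apply_def]
  · simp [swap_apply_def]

theorem sw3 (h : a ≠ b) : swap (inr true) (inl b) * (swap (inr false) (inl a) *
    swap (inr true) (inl b)) = swap (inr false) (inl a : Y ⊕ Bool) := by
  ext (y | _ | _)
  · by_cases h1 : y = a <;> by_cases h2 : y = b <;> simp_all [swap_apply_def]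
  · simp [swap_apply_def, h]
  · simp [swap_apply_def, h.symm]

end

/-- the ordinary point with the number `k` -/
def g (N k : ℕ) : ZMod N ⊕ Bool := inl (k : ZMod N)

variable {N M : ℕ}

/-- the number of a point -/
def cd : ZMod N ⊕ Bool → ℕ
  | inl a => a.val
  | inr e => if e then N + 1 else N

@[simp] theorem cd_L : cd (inr false : ZMod N ⊕ Bool) = N := rfl

@[simp] theorem cd_R : cd (inr true : ZMod N ⊕ Bool) = N + 1 := rfl

theorem cd_g {k : ℕ} (h : k < N) : cd (g N k) = k := ZMod.val_cast_of_lt h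

@[simp] theorem g_ne (k : ℕ) (e : Bool) : g N k ≠ inr e := inl_ne_inr

@[simp] theorem ne_g (k : ℕ) (e : Bool) : inr e ≠ g N k := inr_ne_inl

theorem g_inj {a b : ℕ} (ha : a < N) (hb : b < N) (h : a ≠ b) : g N a ≠ g N b := fun e =>
  h (by rw [← cd_g ha, e, cd_g hb])

theorem cast_ne {a b : ℕ} (ha : a < N) (hb : b < N) (h : a ≠ b) : (a : ZMod N) ≠ b := fun e =>
  g_inj ha hb h (congrArg inl e)

theorem sh_g (a k : ℕ) : sh (k : ZMod N) (g N a) = g N (a + k) := by simp [g]

theorem sh_one_g (a : ℕ) : sh (1 : ZMod N) (g N a) = g N (a + 1) := by simp [g]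

theorem sh_inv_g (a : ℕ) : (sh (1 : ZMod N))⁻¹ (g N (a + 1)) = g N a := by
  rw [← sh_one_g]
  simp

theorem kc_Lg (k : ℕ) : kc (inr false) (g N k) = N := rfl

theorem kc_Rg (k : ℕ) : kc (inr true) (g N k) = N + 1 := rfl

theorem kc_gL (k : ℕ) : kc (g N k) (inr false) = N + 2 := rfl

theorem kc_gR (k : ℕ) : kc (g N k) (inr true) = N + 3 := rfl

theorem kc_g {a b d : ℕ} (hd : d < N) (h : a + d = b ∨ a + d = b + N) :
    kc (g N a) (g N b) = d := by
  rw [← ZMod.val_cast_of_lt hd]
  refine congrArg ZMod.val (sub_eq_of_eq_add' ?_)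
  rw [← Nat.cast_add]
  rcases h with h | h <;> simp [h]

variable [NeZero N]

theorem cd_lt (x : ZMod N ⊕ Bool) : cd x < N + 2 := by
  rcases x with a | _ | _
  · exact a.val_lt.trans (by omega)
  · simp
  · simp

theorem cd_inj : Injective (cd : ZMod N ⊕ Bool → ℕ) := by
  have lt : ∀ a : ZMod N, a.val < N := ZMod.val_lt
  rintro (a | _ | _) (b | _ | _) e <;> simp only [cd, if_true, Bool.false_eq_true, if_false] at e <;>
    first
    | rfl
    | omega
    | exact congrArg inl (ZMod.val_injective N e)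
    | (have := lt a; omega)
    | (have := lt b; omega)

theorem cd_swap (a b x : ZMod N ⊕ Bool) : (cd x = cd a ∧ cd (swap a b x) = cd b) ∨
    (cd x = cd b ∧ cd (swap a b x) = cd a) ∨
    (cd x ≠ cd a ∧ cd x ≠ cd b ∧ cd (swap a b x) = cd x) := by
  simp only [cd_inj.eq_iff, cd_inj.ne_iff, swap_apply_def]
  split_ifs <;> simp_all

theorem cd_sh (x : ZMod N ⊕ Bool) : (cd x + 1 < N ∧ cd (sh 1 x) = cd x + 1) ∨
    (cd x + 1 = N ∧ cd (sh 1 x) = 0) ∨ (N ≤ cd x ∧ cd (sh 1 x) = cd x) := by
  rcases x with a | _ | _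
  · rcases SQL.val_succ a with ⟨h, h'⟩ | ⟨h, h'⟩
    · exact Or.inl ⟨h', h⟩
    · exact Or.inr (Or.inl ⟨h', h⟩)
  · simp
  · simp

/-- the arrangement from which the zigzag starts -/
def uf (N M k : ℕ) : ZMod N ⊕ Bool :=
  if k = 0 then g N (N - 1) else if k < M then g N k else if k = M then inr false else
  if k = M + 1 then inr true else if k < N then g N (k - 1) else if k = N then g N 0 else g N M

omit [NeZero N] in
theorem cd_uf (h : M + 2 < N) (k : ℕ) : (k = 0 ∧ cd (uf N M k) = N - 1) ∨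
    (0 < k ∧ k < M ∧ cd (uf N M k) = k) ∨ (0 < k ∧ k = M ∧ cd (uf N M k) = N) ∨
    (k = M + 1 ∧ cd (uf N M k) = N + 1) ∨ (M + 1 < k ∧ k < N ∧ cd (uf N M k) = k - 1) ∨
    (k = N ∧ cd (uf N M k) = 0) ∨ (N < k ∧ cd (uf N M k) = M) := by
  unfold uf
  split_ifs
  · rw [cd_g (by omega)]; omega
  · rw [cd_g (by omega)]; omega
  · rw [cd_L]; omega
  · rw [cd_R]; omega
  · rw [cd_g (by omega)]; omega
  · rw [cd_g (by omega)]; omega
  · rw [cd_g (by omega)]; omega

theorem exists_u (h : M + 2 < N) (h1 : 0 < M) :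
    ∃ u : Perm (ZMod N ⊕ Bool), ∀ x, u x = uf N M (cd x) := by
  refine ⟨Equiv.ofBijective (fun x => uf N M (cd x)) (Finite.injective_iff_bijective.1
    fun x y e => cd_inj ?_), fun _ => rfl⟩
  have a := cd_uf h (cd x)
  have b := cd_uf h (cd y)
  have := cd_lt x
  have := cd_lt y
  rw [show uf N M (cd x) = uf N M (cd y) from e] at a
  omega

theorem closure (h : M + 2 < N) (h1 : 0 < M) {u : Perm (ZMod N ⊕ Bool)}
    (hu : ∀ x, u x = uf N M (cd x)) :
    sh 1 * (u * swap (inr false) (g N 0)) * (sh 1)⁻¹ = u * (swap (inr true) (g N M) *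
      swap (inr true) (g N (M + 1)) * swap (inr true) (g N (M + 2))) := by
  rw [mul_inv_eq_iff_eq_mul]
  ext x
  refine cd_inj ?_
  simp only [mul_apply]
  have a0 := cd_lt x
  have a1 := cd_swap (inr false) (g N 0) x
  have a2 := cd_uf h (cd (swap (inr false) (g N 0) x))
  have a3 := cd_sh (u (swap (inr false) (g N 0) x))
  have b1 := cd_sh x
  have b2 := cd_swap (inr true) (g N (M + 2)) (sh 1 x)
  have b3 := cd_swap (inr true) (g N (M + 1)) (swap (inr true) (g N (M + 2)) (sh 1 x))
  have b4 := cd_swap (inr true) (g N M) (swap (inr true) (g N (M + 1))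
    (swap (inr true) (g N (M + 2)) (sh 1 x)))
  have b5 := cd_uf h (cd (swap (inr true) (g N M) (swap (inr true) (g N (M + 1))
    (swap (inr true) (g N (M + 2)) (sh 1 x)))))
  rw [← hu] at a2 b5
  rw [cd_g (by omega)] at a1 b2 b3 b4
  rw [cd_L] at a1
  rw [cd_R] at b2 b3 b4
  omega

end Pool.Agent.SQA
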