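import Pool.Agent.MP_f56020_al.SA.Pts

/-! The zigzag block. -/

namespace Pool.Agent.SQA

open Equiv Equiv.Perm Sum
open Function hiding swap

/-- the number of the negative -/
def ng (N k : ℕ) : ℕ := if k = 0 then 0 else N - k

theorem ng_sp (N k : ℕ) : (k = 0 ∧ ng N k = 0) ∨ (0 < k ∧ ng N k = N - k) := by
  unfold ng
  split_ifs <;> omega

/-- the vertices -/
def vv (N M : ℕ) (u : Perm (ZMod N ⊕ Bool)) (j : ℕ) : Perm (ZMod N ⊕ Bool) :=
  if j < N then (if j % 2 = 0 then u * swap (inr false) (g N (ng N (j / 2))) else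
    u * swap (inr true) (g N ((j + 1) / 2))) else
  if j = N then u else
  if j = N + 1 then u * (swap (inr false) (g N M) * swap (inr true) (g N M)) else
  if j = N + 2 then (if N % 2 = 1 then u * (swap (inr true) (g N M) * swap (inr true) (g N (M + 1)))
    else u * (swap (inr false) (g N M) * swap (inr true) (g N M) * swap (inr false) (g N (M + 1))))
  else u * (swap (inr true) (g N M) * swap (inr true) (g N (M + 1)) *
    swap (inr true) (g N (M + 2)))

/-- the first points of the steps -/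
def sx (N M j : ℕ) : ZMod N ⊕ Bool :=
  if j + 1 < N then g N (ng N ((j + 1) / 2)) else
  if j + 1 = N then (if N % 2 = 1 then g N (M + 1) else inr false) else
  if j = N then g N M else
  if j = N + 1 then (if N % 2 = 1 then inr true else g N (M + 1)) else
  if N % 2 = 1 then inr false else inr true

/-- the second points of the steps -/
def sy (N M j : ℕ) : ZMod N ⊕ Bool :=
  if j + 1 < N then g N (j / 2 + 1) else
  if j + 1 = N then (if N % 2 = 1 then inr true else g N (M + 1)) else
  if j = N then inr false else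
  if j = N + 1 then (if N % 2 = 1 then g N (M + 1) else inr true) else g N (M + 2)

/-- the classes of the vertices -/
def hk (N M j : ℕ) : ℕ :=
  if j < N then (if j % 2 = 0 then (if N - j / 2 = M + 1 then N + 1 else M + j / 2 + 1) else
    if (j + 1) / 2 < M then (j + 1) / 2 else if (j + 1) / 2 = M then N + 2 else N + 3) else
  if j = N then M else if j = N + 1 then N else if N % 2 = 1 then N + 3 else N + 1

/-- the classes of the steps -/
def sk (N j : ℕ) : ℕ :=
  if j + 1 < N then j + 1 else if j + 1 = N then (if N % 2 = 1 then N + 3 else N) else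
  if j = N then N + 2 else if j = N + 1 then (if N % 2 = 1 then N + 1 else N + 3) else
  if N % 2 = 1 then N else N + 1

variable {N M : ℕ} {u : Perm (ZMod N ⊕ Bool)}

theorem vv_e {j : ℕ} (h : j < N) (e : j % 2 = 0) :
    vv N M u j = u * swap (inr false) (g N (ng N (j / 2))) := by
  rw [vv, if_pos h, if_pos e]

theorem vv_o {j : ℕ} (h : j < N) (e : j % 2 = 1) :
    vv N M u j = u * swap (inr true) (g N ((j + 1) / 2)) := by
  rw [vv, if_pos h, if_neg (by omega)]

theorem vv_0 : vv N M u N = u := by simp [vv]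

theorem vv_1 : vv N M u (N + 1) = u * (swap (inr false) (g N M) * swap (inr true) (g N M)) := by
  simp [vv]

theorem vv_2o (h : N % 2 = 1) :
    vv N M u (N + 2) = u * (swap (inr true) (g N M) * swap (inr true) (g N (M + 1))) := by
  simp [vv, h]

theorem vv_2e (h : N % 2 = 0) : vv N M u (N + 2) =
    u * (swap (inr false) (g N M) * swap (inr true) (g N M) * swap (inr false) (g N (M + 1))) := by
  simp [vv, h]

theorem vv_3 : vv N M u (N + 3) = u * (swap (inr true) (g N M) * swap (inr true) (g N (M + 1)) *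
    swap (inr true) (g N (M + 2))) := by
  simp [vv]

theorem sk_eq (j : ℕ) :
    kc (sx N M j) (sy N M j) = sk N j := by
  unfold sx sy sk
  split_ifs <;> first
    | rfl
    | (have := ng_sp N ((j + 1) / 2); exact kc_g (by omega) (by omega))

theorem sk_inj {j j' : ℕ} (h : j < N + 3) (h' : j' < N + 3) (e : sk N j = sk N j') : j = j' := by
  unfold sk at e
  split_ifs at e <;> omega

theorem sk_pos (hN : 0 < N) (j : ℕ) : 0 < sk N j := by
  unfold sk
  split_ifs <;> omega

theorem sk_lt {j : ℕ} (h : sk N j < N) : j + 1 < N := by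
  unfold sk at h
  split_ifs at h <;> omega

theorem hk_inj (hM : N = 2 * M + 1 ∨ N = 2 * M + 2) {j j' : ℕ} (h : j < N + 3) (h' : j' < N + 3)
    (e : hk N M j = hk N M j') : j = j' := by
  unfold hk at e
  split_ifs at e <;> omega

theorem hk_pos (hM : 0 < M) (hN : 0 < N) (j : ℕ) : 0 < hk N M j := by
  unfold hk
  split_ifs <;> omega

theorem vv_step (hM : N = 2 * M + 1 ∨ N = 2 * M + 2) (h0 : 0 < M) (j : ℕ) (hj : j < N + 3) :
    vv N M u (j + 1) = vv N M u j * tv (sx N M j) (sy N M j) := by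
  have s := ng_sp N ((j + 1) / 2)
  by_cases h1 : j + 1 < N
  · rw [sx, sy, if_pos h1, if_pos h1, g, g, tvG _ _ (cast_ne (by omega) (by omega) (by omega))]
    rcases Nat.mod_two_eq_zero_or_one j with e | e
    · rw [vv_o h1 (by omega), vv_e (by omega) e, show (j + 1) / 2 = j / 2 by omega,
        show (j + 1 + 1) / 2 = j / 2 + 1 by omega, mul_assoc, g, g, swap_mul_self_mul]
    · rw [vv_e h1 (by omega), vv_o (by omega) e, mul_assoc, g, g,
        show j / 2 + 1 = (j + 1) / 2 by omega, sw3 _ _ (cast_ne (by omega) (by omega) (by omega))]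
  rw [sx, sy, if_neg h1, if_neg h1]
  by_cases h2 : j + 1 = N
  · rw [if_pos h2, if_pos h2, h2, vv_0]
    split_ifs with e
    · have s' := ng_sp N (j / 2)
      rw [vv_e (by omega) (by omega), show ng N (j / 2) = M + 1 by omega, g, tvB, mul_assoc,
        swap_mul_self, mul_one]
    · rw [vv_o (by omega) (by omega), g, g, tvA, show (j + 1) / 2 = M + 1 by omega, mul_assoc,
        swap_mul_self, mul_one]
  rw [if_neg h2, if_neg h2]
  by_cases h3 : j = N
  · rw [if_pos h3, if_pos h3, h3, vv_1, vv_0, g, tvD]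
  rw [if_neg h3, if_neg h3]
  by_cases h4 : j = N + 1
  · rw [if_pos h4, if_pos h4, h4, vv_1]
    split_ifs with e
    · rw [vv_2o e, g, g, tvC, mul_assoc u, ← mul_assoc (_ * _), sw1]
    · rw [vv_2e (by omega), g, g, tvB, mul_assoc u]
  rw [if_neg h4, if_neg h4, show j = N + 2 by omega, vv_3]
  split_ifs with e
  · rw [vv_2o e, g, g, g, tvA, mul_assoc u]
  · rw [vv_2e (by omega), g, g, g, tvC, mul_assoc u, ← mul_assoc (_ * _), mul_assoc (_ * _) _ (swap
      (inr false) (inr true)), sw2, ← mul_assoc (_ * _), sw1]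

/-- the values of the first arrangement -/
structure UU (N M : ℕ) (u : Perm (ZMod N ⊕ Bool)) : Prop where
  z : u (g N 0) = g N (N - 1)
  lo : ∀ k, 0 < k → k < M → u (g N k) = g N k
  m : u (g N M) = inr false
  n : u (g N (M + 1)) = inr true
  up : ∀ k, M + 1 < k → k < N → u (g N k) = g N (k - 1)
  l : u (inr false) = g N 0
  r : u (inr true) = g N M

theorem UU.of (h : M + 2 < N) (h1 : 0 < M) (hu : ∀ x, u x = uf N M (cd x)) : UU N M u := by
  refine ⟨?_, fun k a b => ?_, ?_, ?_, fun k a b => ?_, ?_, ?_⟩ <;> rw [hu] <;>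
    first | rw [cd_g (by omega)] | rw [cd_L] | rw [cd_R]
  all_goals
    unfold uf
    split_ifs <;> first | rfl | omega | contradiction

theorem hk_eq (hM : N = 2 * M + 1 ∨ N = 2 * M + 2) (h : M + 2 < N) (U : UU N M u) (j : ℕ)
    (hj : j < N + 3) : kc (vv N M u j (inr false)) (vv N M u j (inr true)) = hk N M j := by
  have n1 : g N (M + 1) ≠ g N M := g_inj (by omega) (by omega) (by omega)
  unfold hk
  by_cases h1 : j < N
  · rw [if_pos h1]
    rcases Nat.mod_two_eq_zero_or_one j with e | e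
    · rw [vv_e h1 e, if_pos e, mul_apply, mul_apply, swap_apply_left,
        swap_apply_of_ne_of_ne (by simp) (by simp), U.r]
      rcases ng_sp N (j / 2) with ⟨a, b⟩ | ⟨a, b⟩ <;> rw [b]
      · rw [U.z, if_neg (by omega)]
        exact kc_g (by omega) (by omega)
      · split_ifs with c
        · rw [c, U.n, kc_Rg]
        · rw [U.up _ (by omega) (by omega)]
          exact kc_g (by omega) (by omega)
    · rw [vv_o h1 e, if_neg (by omega), mul_apply, mul_apply, swap_apply_left,
        swap_apply_of_ne_of_ne (by simp) (by simp), U.l]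
      split_ifs with c d
      · rw [U.lo _ (by omega) c]
        exact kc_g (by omega) (by omega)
      · rw [d, U.m, kc_gL]
      · rw [show (j + 1) / 2 = M + 1 by omega, U.n, kc_gR]
  rw [if_neg h1]
  split_ifs with a b c
  · rw [a, vv_0, U.l, U.r]
    exact kc_g (by omega) (by omega)
  · rw [b, vv_1]
    simp [swap_apply_of_ne_of_ne, U.m, U.l, kc_Lg]
  · rw [show j = N + 2 by omega, vv_2o c]
    simp [swap_apply_of_ne_of_ne, U.n, U.l, kc_gR, n1]
  · rw [show j = N + 2 by omega, vv_2e (by omega)]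
    simp [swap_apply_of_ne_of_ne, U.n, U.l, kc_Rg, n1]

/-- the correction of the sign -/
def bb (N : ℕ) (s t : Perm (ZMod N)) (j : ℕ) : Perm (ZMod N) :=
  if j = N ∨ j = N + 1 ∨ (j = N + 2 ∧ N % 2 = 1) then t else s

variable [NeZero N]

theorem vv_sign {s t : Perm (ZMod N)} (hs : sign s = -sign u) (ht : sign t = sign u) (j : ℕ)
    (hj : j < N + 3) : sign (vv N M u j) = sign (bb N s t j) := by
  unfold vv bb
  split_ifs <;> first | omega | simp [hs, ht]

theorem exists_st (h : 1 < N) (u : Perm (ZMod N ⊕ Bool)) : ∃ s t : Perm (ZMod N),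
    sign s = -sign u ∧ sign t = sign u ∧ ∀ k, 1 < k → k < N →
      em s (g N k) = g N k ∧ em t (g N k) = g N k := by
  have a : sign (swap ((0 : ℕ) : ZMod N) (1 : ℕ)) = -1 :=
    sign_swap (cast_ne (by omega) h (by omega))
  have b : ∀ k, 1 < k → k < N → em (swap ((0 : ℕ) : ZMod N) (1 : ℕ)) (g N k) = g N k :=
    fun k c d => congrArg inl (swap_apply_of_ne_of_ne (cast_ne d (by omega) (by omega))
      (cast_ne d h (by omega)))
  rcases Int.units_eq_one_or (sign u) with e | e <;> rw [e]
  · exact ⟨_, 1, a, sign_one, fun k c d => ⟨b k c d, rfl⟩⟩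
  · exact ⟨1, _, by simp, a, fun k c d => ⟨rfl, b k c d⟩⟩

theorem exists_fm (hN : 4 ≤ N) : Nonempty (Fm (ZMod N) (ZMod N × ZMod (N + 3))) := by
  obtain ⟨M, hM⟩ : ∃ M, N = 2 * M + 1 ∨ N = 2 * M + 2 := ⟨(N - 1) / 2, by omega⟩
  have h : M + 2 < N := by omega
  have h1 : 0 < M := by omega
  obtain ⟨u, hu⟩ := exists_u h h1
  have U := UU.of h h1 hu
  obtain ⟨s, t, hs, ht, f⟩ := exists_st (by omega) u
  have n1 : g N (M + 1) ≠ g N M := g_inj (by omega) (by omega) (by omega)
  have b0 : bb N s t N = t := by simp [bb]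
  have b1 : bb N s t (N + 1) = t := by simp [bb]
  have b3 : bb N s t (N + 3) = s := by simp [bb]
  have bl : ∀ j < N, bb N s t j = s := fun j hj => if_neg (by omega)
  suffices H : ∃ (rp rr : ZMod N) (p q r : ℕ), p < N + 3 ∧ q < N + 3 ∧ r < N + 3 ∧
      (∀ e, (vv N M u (q + 1) * em (bb N s t (q + 1)) * (sh rp * vv N M u (p + 1) * (sh rp)⁻¹ *
        em (bb N s t (p + 1)))⁻¹ * (sh rp * vv N M u p * (sh rp)⁻¹ * em (bb N s t p))) (inr e) =
        sh rr (vv N M u r (inr e))) ∧
      vv N M u (q + 1) * em (bb N s t (q + 1)) * (sh rp * vv N M u (p + 1) * (sh rp)⁻¹ *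
        em (bb N s t (p + 1)))⁻¹ * (sh rp * vv N M u p * (sh rp)⁻¹ * em (bb N s t p)) ≠
        sh rr * vv N M u r * (sh rr)⁻¹ * em (bb N s t r) ∧
      sh rp * vv N M u (p + 1) * (sh rp)⁻¹ * em (bb N s t (p + 1)) *
        (vv N M u (q + 1) * em (bb N s t (q + 1)))⁻¹ * (vv N M u q * em (bb N s t q)) ∈ PP _ ∧
      (vv N M u q)⁻¹ * (sh rr * vv N M u (r + 1) * (sh rr)⁻¹) ∈ PP _ by
    obtain ⟨rp, rr, p, q, r, hp, hq, hr, p1, p2, p3, p4⟩ := H
    refine Bk.fm ⟨vv N M u, sx N M, sy N M, bb N s t, rp, rr, p, q, r, hp, hq, hr, vv_step hM h1,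
      ?_, b3.trans (bl 0 (by omega)).symm, fun j hj => ?_, fun j hj j' hj' e => ?_, fun j _ => ?_,
      fun j hj j' hj' e => ?_, fun j _ e => ?_, vv_sign hs ht, p1, p2, p3, p4⟩
    · rw [vv_3, vv_e (by omega) rfl, ← closure h h1 hu]
      rfl
    · rw [hk_eq hM h U j hj]
      exact hk_pos h1 (by omega) j
    · rw [hk_eq hM h U j hj, hk_eq hM h U j' hj'] at e
      exact hk_inj hM hj hj' e
    · rw [sk_eq]
      exact sk_pos (by omega) j
    · rw [sk_eq, sk_eq] at e
      exact sk_inj hj hj' e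
    · rw [sk_eq] at e
      have := sk_lt e
      rw [bl j (by omega), bl (j + 1) this, bl 0 (by omega)]
      exact ⟨rfl, rfl⟩
  rcases hM with hM | hM
  · have o : N % 2 = 1 := by omega
    have b2 : bb N s t (N + 2) = t := by simp [bb, o]
    have n2 : g N M ≠ g N 0 := g_inj (by omega) (by omega) (by omega)
    have n3 : g N (M + 1) ≠ g N 0 := g_inj (by omega) (by omega) (by omega)
    have n4 : g N 1 ≠ g N M := g_inj (by omega) (by omega) (by omega)
    have f1 := f (M + 1) (by omega) (by omega)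
    have f2 := f (M + 2) (by omega) (by omega)
    have g1 : (em t)⁻¹ (g N (M + 1)) = g N (M + 1) := Perm.inv_eq_iff_eq.2 f1.2.symm
    have g2 : (em t)⁻¹ (g N (M + 2)) = g N (M + 2) := Perm.inv_eq_iff_eq.2 f2.2.symm
    have g3 : (em s)⁻¹ (g N (M + 2)) = g N (M + 2) := Perm.inv_eq_iff_eq.2 f2.1.symm
    have g4 : ∀ (k : Perm (ZMod N)) e, (em k)⁻¹ (inr e) = inr e := fun _ _ => rfl
    have c := closure h h1 hu
    have w : vv N M u (N - 2) = u * swap (inr true) (g N M) := by
      rw [vv_o (by omega) (by omega), show (N - 2 + 1) / 2 = M by omega]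
    have w' : vv N M u (N - 2 + 1) = u * swap (inr false) (g N (M + 1)) := by
      rw [vv_e (by omega) (by omega), show ng N ((N - 2 + 1) / 2) = M + 1 by
        have := ng_sp N ((N - 2 + 1) / 2); omega]
    have E : vv N M u (N + 2 + 1) * em (bb N s t (N + 2 + 1)) * (sh 1 * vv N M u (N + 1) *
        (sh 1)⁻¹ * em (bb N s t (N + 1)))⁻¹ * (sh 1 * vv N M u N * (sh 1)⁻¹ * em (bb N s t N)) =
        sh 1 * u * swap (inr false) (g N 0) * (sh 1)⁻¹ * em s * (em t)⁻¹ * sh 1 *
        swap (inr true) (g N M) * swap (inr false) (g N M) * (sh 1)⁻¹ * em t := by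
      rw [vv_3, ← c, b3, b1, b0, vv_1, vv_0]
      simp only [mul_inv_rev, swap_inv, inv_inv, mul_assoc, inv_mul_cancel_left]
    refine ⟨1, (M + 1 : ℕ), N, N + 2, N - 2, by omega, by omega, by omega, fun e => ?_,
      fun e => ?_, mem_PP.2 ?_, mem_PP.2 ?_⟩
    · rw [E, w]
      cases e <;> simp only [mul_apply, em_inr, sh_inv_inr, swap_apply_left, swap_apply_right,
        sh_inr, g4, sh_one_g, sh_g, g1, f1.1, sh_inv_g, swap_apply_of_ne_of_ne, ne_eq, n2, U.m,
        U.l, U.r, ne_g, g_ne, inr.injEq, Bool.true_eq_false, Bool.false_eq_true, not_false_eq_true,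
        Nat.zero_add]
    · rw [E, w, bl _ (by omega)] at e
      have e := congrArg (· (g N (M + 2))) e
      have i : (sh ((M + 1 : ℕ) : ZMod N))⁻¹ (g N (M + 2)) = g N 1 :=
        Perm.inv_eq_iff_eq.2 (by rw [sh_g]; congr 1; omega)
      simp only [mul_apply, f2.1, f2.2, g2, sh_inv_g (M + 1), sh_one_g, swap_apply_of_ne_of_ne,
        ne_eq, n1, n3, n4, U.n, sh_inr, i, U.lo 1 one_pos (by omega), sh_g, ne_g, g_ne,
        not_false_eq_true] at e
    · rw [vv_3, vv_2o o, b3, b1, b2, vv_1]
      simp only [mul_inv_rev, swap_inv, mul_assoc, inv_mul_cancel_left, swap_mul_self_mul,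
        mul_apply, em_inr, sh_inv_inr, swap_apply_left, sh_inr, g4, g3, f2.2, sh_inv_g (M + 1), swap_apply_of_ne_of_ne, ne_eq, n1, U.m,
        U.n, ne_g, g_ne, inr.injEq, Bool.false_eq_true, not_false_eq_true, isRight_inr, and_self]
    · have a1 : (vv N M u (N + 2))⁻¹ (inr true) = inr true := Perm.inv_eq_iff_eq.2 (by
        simp [vv_2o o, swap_apply_of_ne_of_ne, U.n, n1])
      have a2 : (vv N M u (N + 2))⁻¹ (g N (M + (M + 1))) = inr false := Perm.inv_eq_iff_eq.2 (by
        rw [show M + (M + 1) = N by omega]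
        simp [vv_2o o, swap_apply_of_ne_of_ne, U.l, g])
      rw [w']
      simp only [mul_apply, sh_inv_inr, swap_apply_left, sh_inr, sh_g, swap_apply_of_ne_of_ne,
        ne_eq, U.n, U.r, ne_g, inr.injEq, Bool.true_eq_false, not_false_eq_true, a1, a2,
        isRight_inr, and_self]
  · have o : N % 2 = 0 := by omega
    have b2 : bb N s t (N + 1 + 1) = s := if_neg (by omega)
    have := ng_sp N ((N - 4) / 2)
    have n2 : g N (ng N ((N - 4) / 2)) ≠ g N M := g_inj (by omega) (by omega) (by omega)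
    have n3 : g N (ng N ((N - 4) / 2)) ≠ g N (M + 1) := g_inj (by omega) (by omega) (by omega)
    have w : vv N M u (N - 4 + 1) = u * swap (inr true) (g N M) := by
      rw [vv_o (by omega) (by omega), show (N - 4 + 1 + 1) / 2 = M by omega]
    refine ⟨0, 0, N - 4, N + 1, N - 4, by omega, by omega, by omega, fun e => ?_,
      fun e => ?_, mem_PP.2 ?_, mem_PP.2 ?_⟩
    · rw [vv_2e o, w, vv_e (by omega) (by omega), b2, bl _ (by omega), bl _ (by omega), sh_zero]
      cases e <;> simp [swap_apply_of_ne_of_ne, n1.symm, n2, n3]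
    · rw [b2, bl _ (by omega), bl _ (by omega), mul_eq_right, mul_inv_eq_one, mul_left_inj,
        vv_2e o, w, sh_zero] at e
      have e := congrArg (· (inr false)) e
      simp [swap_apply_of_ne_of_ne, n1, U.n, U.l] at e
    · rw [vv_2e o, w, vv_1, b2, bl _ (by omega), sh_zero]
      simp only [mul_inv_rev, mul_assoc, inv_mul_cancel_left, mul_inv_cancel_left]
      simp [swap_apply_of_ne_of_ne, n1, U.n, U.m]
    · rw [w, vv_1, sh_zero]
      simp [swap_apply_of_ne_of_ne]

end Pool.Agent.SQA
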