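import Pool.Agent.MP_f56020_al.SA.Base
import Pool.Agent.MP_f56020_al.SA.Zig

/-! The induction on the degree, in steps of two. -/

namespace Pool.Agent.SQA

open Equiv Equiv.Perm Pool.Agent.SQ Pool.Agent.SQ2
open Function hiding swap

/-- the permutation of two points with a given sign -/
def chi : ℤˣ →* Perm Bool where
  toFun u := if u = 1 then 1 else swap false true
  map_one' := rfl
  map_mul' := by decide

theorem chi_sp : ∀ (u : ℤˣ) (e : Perm Bool), u * sign e = 1 ↔ chi u = e := by decide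

/-- two signs -/
def lam : ℤˣ × ℤˣ →* Multiplicative (ZMod 2 × ZMod 2) where
  toFun p := .ofAdd (if p.1 = 1 then 0 else 1, if p.2 = 1 then 0 else 1)
  map_one' := rfl
  map_mul' := by decide

theorem lam_surj : Surjective lam := by decide

theorem lam_one : ∀ (u : ℤˣ) (e : Perm Bool), lam (u, sign e) = 1 ↔ u = 1 ∧ e = 1 := by decide

variable {Y : Type*} [Fintype Y] [DecidableEq Y]

theorem stab_alt : Nonempty (Perm Y ≃* (PP Y).subgroupOf (alternatingGroup (Y ⊕ Bool))) := by
  let f : Perm Y →* Perm (Y ⊕ Bool) :=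
    (sumCongrHom Y Bool).comp ((MonoidHom.id _).prod (chi.comp sign))
  have hf : ∀ k, f k ∈ alternatingGroup (Y ⊕ Bool) := fun k =>
    (sign_sumCongr _ _).trans ((chi_sp _ _).2 rfl)
  refine ⟨MulEquiv.ofBijective ((f.codRestrict _ hf).codRestrict
    ((PP Y).subgroupOf (alternatingGroup (Y ⊕ Bool))) fun k => ⟨_, rfl⟩) ⟨fun a b e => ?_, ?_⟩⟩
  · exact congrArg Prod.fst (sumCongrHom_injective (congrArg (·.1.1) e))
  · rintro ⟨⟨g, h⟩, ⟨k, e⟩, q⟩
    obtain rfl : Perm.sumCongr k e = g := q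
    refine ⟨k, Subtype.ext (Subtype.ext ?_)⟩
    have : chi (sign k) = e := (chi_sp _ _).1 ((sign_sumCongr _ _).symm.trans h)
    exact congrArg (Perm.sumCongr k) this

theorem prod_two (h3 : 2 < Fintype.card Y) (h : RG (alternatingGroup Y)) :
    RG (Perm Y × Perm Bool) ∧ SG (Perm Y × Perm Bool) := by
  obtain ⟨a, b, c, h1, h2, h4⟩ := Fintype.two_lt_card_iff.1 h3
  have : Nontrivial Y := ⟨a, b, h1⟩
  let φ : Perm Y × Perm Bool →* _ := lam.comp (sign.prodMap sign)
  have hφ : Surjective φ := lam_surj.comp ((sign_surjective Y).prodMap (sign_surjective Bool))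
  let f : alternatingGroup Y →* φ.ker := ((MonoidHom.inl _ _).comp
    (alternatingGroup Y).subtype).codRestrict _ fun k => (lam_one _ 1).2 ⟨k.2, rfl⟩
  have hf : Bijective f := by
    refine ⟨fun a b e => Subtype.ext (congrArg (·.1.1) e), ?_⟩
    rintro ⟨⟨k, e⟩, q⟩
    obtain ⟨q, rfl⟩ := (lam_one _ _).1 q
    exact ⟨⟨k, q⟩, rfl⟩
  obtain ⟨r, s⟩ := top_v4 φ hφ (RG.of_equiv (MulEquiv.ofBijective f hf) h)
  refine ⟨r, s fun q => ?_⟩
  have := congrArg (·.1 b) (q (swap a b, 1) (swap b c, 1))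
  simp [swap_apply_of_ne_of_ne, h1, h2, h2.symm, h4.symm] at this

theorem QQ.step {N : ℕ} [NeZero N] (hN : 4 ≤ N) (h : QQ (ZMod N)) : QQ (ZMod N ⊕ Bool) := by
  obtain ⟨D⟩ := exists_fm hN
  have : Fact (1 < N) := ⟨by omega⟩
  have cI : Nat.card (ZMod N × ZMod (N + 3)) = N * (N + 3) := by simp
  have cP : Nat.card (Perm (ZMod N)) = N.factorial := by rw [Nat.card_perm, Nat.card_zmod]
  have c4 : 24 ≤ N.factorial := Nat.factorial_le hN
  constructor
  · have e : (alternatingGroup (ZMod N ⊕ Bool)).comap em = alternatingGroup (ZMod N) := by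
      ext k
      rw [Subgroup.mem_comap, mem_alternatingGroup, mem_alternatingGroup, sign_em]
    obtain ⟨η, m, n, x⟩ := D.main (alternatingGroup _) (fun g q => q) (by rw [e]; exact h.1.1)
      fun n q => by
        rw [e] at q
        have c := two_mul_nat_card_alternatingGroup (α := ZMod N)
        rw [← q, cP] at c
        exact ⟨cI ▸ cop hN (Or.inr rfl) c, by omega⟩
    obtain ⟨i⟩ := stab_alt (Y := ZMod N)
    exact ⟨ex_RR (RG.of_equiv i h.2.1) m n x, ex_SS (SG.of_equiv i h.2.2) m n x⟩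
  · have e : (⊤ : Subgroup (Perm (ZMod N ⊕ Bool))).comap em = ⊤ := Subgroup.comap_top _
    obtain ⟨η, m, n, x⟩ := D.main ⊤ (fun g _ => trivial)
      (by rw [e]; exact RG.of_equiv Subgroup.topEquiv.symm h.2.1) fun n q => by
        rw [e, Subgroup.card_top, cP] at q
        exact ⟨cI ▸ cop hN (Or.inl rfl) (by omega), by omega⟩
    obtain ⟨r, s⟩ := prod_two (Y := ZMod N) (by rw [ZMod.card]; omega) h.1.1
    let i := (MonoidHom.ofInjective (f := sumCongrHom (ZMod N) Bool) sumCongrHom_injective).trans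
      (Subgroup.subgroupOfEquivOfLe (H := PP (ZMod N)) le_top).symm
    exact ⟨RG.of_equiv Subgroup.topEquiv (ex_RR (RG.of_equiv i r) m n x),
      SG.of_equiv Subgroup.topEquiv (ex_SS (SG.of_equiv i s) m n x)⟩

theorem qq_fin : ∀ n : ℕ, QQ (Fin (n + 4))
  | 0 => base4
  | 1 => base5
  | n + 2 => (QQ.step (N := n + 4) (by omega) (qq_fin n)).of_equiv
      (Fintype.equivFinOfCardEq (by simp))

theorem sg_all (h : 4 ≤ Fintype.card Y) (G : Subgroup (Perm Y)) (hG : alternatingGroup Y ≤ G) :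
    SG G := by
  have q : QQ Y := (qq_fin (Fintype.card Y - 4)).of_equiv
    (Fintype.equivFinOfCardEq (by omega)).symm
  by_cases c : G ≤ alternatingGroup Y
  · rw [le_antisymm c hG]
    exact q.1.2
  obtain ⟨g, m, n⟩ := SetLike.not_le_iff_exists.1 c
  have : G = ⊤ := eq_top_iff.2 fun k _ => by
    by_cases s : sign k = 1
    · exact hG s
    · refine (G.mul_mem_cancel_right m).1 (hG ?_)
      rw [mem_alternatingGroup, Perm.sign_mul, Int.units_ne_iff_eq_neg.1 s,
        Int.units_ne_iff_eq_neg.1 n]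
      rfl
  rw [this]
  exact SG.of_equiv Subgroup.topEquiv.symm q.2.2

end Pool.Agent.SQA
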